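import Pool.Agent.MP3ada3c.Algebra

set_option autoImplicit false

open WeakDual

namespace Pool.Agent.Results.MP_3ada3c_an.CountGenNonSep

/-- There is a commutative unital complex Banach algebra `A` (even a uniform algebra:
`‖a * a‖ = ‖a‖ * ‖a‖`) whose spectrum is countably generated, i.e. some countable set `S` of
characters satisfies `σ(x) = closure {φ(x) : φ ∈ S}` for all `x`, while its Gelfand space
is not separable. -/
theorem result :
    ∃ (A : Type) (_ : NormedCommRing A) (_ : NormedAlgebra ℂ A),
      CompleteSpace A ∧ NormOneClass A ∧ (∀ a : A, ‖a * a‖ = ‖a‖ * ‖a‖) ∧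
      (∃ S : Set (characterSpace ℂ A), S.Countable ∧
        ∀ x : A, spectrum ℂ x = closure ((fun φ : characterSpace ℂ A => φ x) '' S)) ∧
      ¬ TopologicalSpace.SeparableSpace (characterSpace ℂ A) :=
  ⟨MP3ada3c.AA, inferInstance, inferInstance, inferInstance, inferInstance, MP3ada3c.norm_sq,
    MP3ada3c.countably_generated, MP3ada3c.not_separable⟩

end Pool.Agent.Results.MP_3ada3c_an.CountGenNonSep
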